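import Pool.Agent.H92.EX.Targets2

/-!
Row XDEG of the board excp_modules: monomials of a function with absolute values of mean value zero.
-/

set_option autoImplicit false

open Filter Topology Finset

namespace Pool.Agent.H65.EX

open Pool.Agent.H89.MT Pool.Agent.H92.RR Pool.Agent.H92.EX

theorem ss_mono {w : ℕ → ℝ} (hw : ∀ p, 0 ≤ w p) {M N : ℕ} (h : M ≤ N) : SS w M ≤ SS w N := by
  unfold SS
  refine Finset.sum_le_sum_of_subset_of_nonneg ?_ fun p _ _ => div_nonneg (hw p) (Nat.cast_nonneg p)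
  intro p hp
  unfold pr at hp ⊢
  simp only [Finset.mem_filter, Finset.mem_Icc] at hp ⊢
  exact ⟨⟨hp.1.1, hp.1.2.trans h⟩, hp.2⟩

theorem pf_XDEG (hMERT : T_MERT) (hEUL : T_EUL) : T_XDEG := by
  intro u hu hB H a hH
  obtain ⟨h0, hh0, hodd⟩ := hH
  obtain ⟨C, hC⟩ := hMERT
  set v : ℕ → ℝ := fun n => |(u n : ℝ)| with hv
  have hv0 : ∀ n, 0 ≤ v n := fun n => abs_nonneg _
  have hv1 : ∀ n, v n ≤ 1 := fun n => abs_le.2 (u n).2
  set w : ℕ → ℝ := fun p => 1 - |(u p : ℝ)| with hw
  have hw0 : ∀ p, 0 ≤ w p := fun p => sub_nonneg.2 (hv1 p)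
  -- the sum of `w` tends to infinity
  have hunb : ∀ A : ℝ, ∃ N₀, A < SS w N₀ := by
    intro A
    by_contra hcon
    push Not at hcon
    exact hB ⟨A, by rintro _ ⟨N, rfl⟩; exact hcon N⟩
  -- pointwise bound of the monomials
  have hmono : ∀ n, |mono u H a n| ≤ v (n + h0) := by
    intro n
    unfold mono
    rw [Finset.abs_prod, ← Finset.mul_prod_erase H _ hh0]
    have h1 : |(u (n + h0) : ℝ) ^ a h0| ≤ v (n + h0) := by
      rw [abs_pow]
      calc |(u (n + h0) : ℝ)| ^ a h0 ≤ |(u (n + h0) : ℝ)| ^ 1 :=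
            pow_le_pow_of_le_one (hv0 _) (hv1 _) hodd.pos
        _ = v (n + h0) := by rw [pow_one]
    have h2 : ∏ x ∈ H.erase h0, |(u (n + x) : ℝ) ^ a x| ≤ 1 := by
      refine Finset.prod_le_one (fun x _ => abs_nonneg _) fun x _ => ?_
      rw [abs_pow]
      exact pow_le_one₀ (hv0 _) (hv1 _)
    calc |(u (n + h0) : ℝ) ^ a h0| * ∏ x ∈ H.erase h0, |(u (n + x) : ℝ) ^ a x| ≤
          v (n + h0) * 1 :=
          mul_le_mul h1 h2 (Finset.prod_nonneg fun x _ => abs_nonneg _) (hv0 _)
      _ = v (n + h0) := mul_one _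
  -- bound of the average
  have hbound : ∀ N : ℕ, 3 ≤ N → h0 ≤ N →
      |lavg N (mono u H a)| ≤ 2 * ((h0 : ℝ) + 1) * Real.exp (1 + C - SS w N) := by
    intro N hN hN0
    have hN' : (3 : ℝ) ≤ N := by exact_mod_cast hN
    have hlog : 0 < Real.log N := Real.log_pos (by linarith)
    have hM3 : 3 ≤ N + h0 := by omega
    have h1 : |∑ n ∈ Icc 1 N, mono u H a n / n| ≤ ((h0 : ℝ) + 1) * ∑ m ∈ Icc 1 (N + h0), v m / m := by
      calc |∑ n ∈ Icc 1 N, mono u H a n / n| ≤ ∑ n ∈ Icc 1 N, |mono u H a n / n| :=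
            Finset.abs_sum_le_sum_abs _ _
        _ ≤ ∑ n ∈ Icc 1 N, ((h0 : ℝ) + 1) * (v (n + h0) / ((n + h0 : ℕ) : ℝ)) := by
            refine Finset.sum_le_sum fun n hn => ?_
            rw [Finset.mem_Icc] at hn
            have hn1 : (1 : ℝ) ≤ n := by exact_mod_cast hn.1
            rw [abs_div, Nat.abs_cast]
            have h2 : v (n + h0) / n ≤ ((h0 : ℝ) + 1) * (v (n + h0) / ((n + h0 : ℕ) : ℝ)) := by
              rw [mul_div_assoc', div_le_div_iff₀ (by linarith) (by push_cast; positivity)]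
              push_cast
              have h3 : (n : ℝ) + h0 ≤ ((h0 : ℝ) + 1) * n := by nlinarith [Nat.cast_nonneg (α := ℝ) h0]
              calc v (n + h0) * ((n : ℝ) + h0) ≤ v (n + h0) * (((h0 : ℝ) + 1) * n) :=
                    mul_le_mul_of_nonneg_left h3 (hv0 _)
                _ = ((h0 : ℝ) + 1) * v (n + h0) * n := by ring
            exact (div_le_div_of_nonneg_right (hmono n) (by linarith)).trans h2
        _ = ((h0 : ℝ) + 1) * ∑ n ∈ Icc 1 N, v (n + h0) / ((n + h0 : ℕ) : ℝ) := by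
            rw [Finset.mul_sum]
        _ ≤ ((h0 : ℝ) + 1) * ∑ m ∈ Icc 1 (N + h0), v m / m := by
            refine mul_le_mul_of_nonneg_left ?_ (by positivity)
            have h4 : ∑ n ∈ Icc 1 N, v (n + h0) / ((n + h0 : ℕ) : ℝ) =
                ∑ m ∈ (Icc 1 N).image (fun n => n + h0), v m / m := by
              rw [Finset.sum_image]
              intro x _ y _ hxy
              simpa using hxy
            rw [h4]
            refine Finset.sum_le_sum_of_subset_of_nonneg ?_
              fun m _ _ => div_nonneg (hv0 m) (Nat.cast_nonneg m)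
            intro m hm
            rw [Finset.mem_image] at hm
            obtain ⟨n, hn, rfl⟩ := hm
            rw [Finset.mem_Icc] at hn ⊢
            omega
    have h2 := hEUL v hv0 hv1 (fun m n hm hn hmn => by
      simp only [hv]
      rw [hu.2 m n hm hn hmn, abs_mul]) (N + h0)
    have h3 : SS v (N + h0) = SS (fun _ => 1) (N + h0) - SS w (N + h0) := by
      unfold SS
      rw [← Finset.sum_sub_distrib]
      apply Finset.sum_congr rfl
      intro p _
      simp only [hw, hv]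
      ring
    have h4 := hC (N + h0) hM3
    have h5 : SS w N ≤ SS w (N + h0) := ss_mono hw0 (Nat.le_add_right _ _)
    have hMpos : (0 : ℝ) < ((N + h0 : ℕ) : ℝ) := by
      have : 0 < N + h0 := by omega
      exact_mod_cast this
    have hlogM : Real.log ((N + h0 : ℕ) : ℝ) ≤ 2 * Real.log N := by
      have h6 : ((N + h0 : ℕ) : ℝ) ≤ (N : ℝ) ^ 2 := by
        have : N + h0 ≤ N ^ 2 := by nlinarith
        exact_mod_cast this
      calc Real.log ((N + h0 : ℕ) : ℝ) ≤ Real.log ((N : ℝ) ^ 2) := Real.log_le_log hMpos h6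
        _ = 2 * Real.log N := by rw [Real.log_pow]; norm_num
    have hlogM0 : 0 < Real.log ((N + h0 : ℕ) : ℝ) := by
      refine Real.log_pos ?_
      have : 1 < N + h0 := by omega
      exact_mod_cast this
    have h6 : ∑ m ∈ Icc 1 (N + h0), v m / m ≤
        2 * Real.log N * Real.exp (1 + C - SS w N) := by
      calc ∑ m ∈ Icc 1 (N + h0), v m / m ≤ Real.exp (SS v (N + h0) + 1) := h2
        _ ≤ Real.exp (Real.log (Real.log ((N + h0 : ℕ) : ℝ)) + (1 + C - SS w N)) := by
            apply Real.exp_le_exp.2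
            rw [h3]
            linarith
        _ = Real.log ((N + h0 : ℕ) : ℝ) * Real.exp (1 + C - SS w N) := by
            rw [Real.exp_add, Real.exp_log hlogM0]
        _ ≤ 2 * Real.log N * Real.exp (1 + C - SS w N) :=
            mul_le_mul_of_nonneg_right hlogM (Real.exp_pos _).le
    unfold lavg
    rw [abs_div, abs_of_pos hlog, div_le_iff₀ hlog]
    calc |∑ n ∈ Icc 1 N, mono u H a n / n| ≤ ((h0 : ℝ) + 1) * ∑ m ∈ Icc 1 (N + h0), v m / m := h1
      _ ≤ ((h0 : ℝ) + 1) * (2 * Real.log N * Real.exp (1 + C - SS w N)) :=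
          mul_le_mul_of_nonneg_left h6 (by positivity)
      _ = _ := by ring
  -- the limit
  rw [Metric.tendsto_atTop]
  intro ε hε
  obtain ⟨N₀, hN₀⟩ := hunb (1 + C - Real.log (ε / (4 * ((h0 : ℝ) + 1))))
  refine ⟨max (max N₀ 3) h0, fun N hN => ?_⟩
  have h1 : N₀ ≤ N := (le_max_left _ _).trans ((le_max_left _ _).trans hN)
  have h2 : 3 ≤ N := (le_max_right _ _).trans ((le_max_left _ _).trans hN)
  have h3 : h0 ≤ N := (le_max_right _ _).trans hN
  have h4 : SS w N₀ ≤ SS w N := ss_mono hw0 h1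
  rw [Real.dist_eq, sub_zero]
  refine (hbound N h2 h3).trans_lt ?_
  have hpos : (0 : ℝ) < ε / (4 * ((h0 : ℝ) + 1)) := by positivity
  calc 2 * ((h0 : ℝ) + 1) * Real.exp (1 + C - SS w N) ≤
        2 * ((h0 : ℝ) + 1) * Real.exp (Real.log (ε / (4 * ((h0 : ℝ) + 1)))) := by
        refine mul_le_mul_of_nonneg_left (Real.exp_le_exp.2 ?_) (by positivity)
        linarith
    _ = ε / 2 := by
        rw [Real.exp_log hpos]
        field_simp
        norm_num
    _ < ε := by linarith

end Pool.Agent.H65.EX
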